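import Pool.Agent.TH933.JT.GenK

/-! # The centre of `G / [K1, K1]` and finite quotients -/

set_option autoImplicit false

open scoped commutatorElement

namespace Pool.Agent.TH933.JT

namespace Cen

open Pool.Agent.Helper111.EN

variable {G : Type} [Group G]

/-- `k ↦ g [k, s] g⁻¹` modulo `[K1, K1]` -/
noncomputable def Ds (K1 : Subgroup G) [hn : K1.Normal] (g s : G) : K1 →* Abelianization K1 where
  toFun k := Abelianization.of ⟨g * (k * s * (k : G)⁻¹ * s⁻¹) * g⁻¹, by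
    refine hn.conj_mem _ ?_ g
    have h : (k : G) * s * (k : G)⁻¹ * s⁻¹ = k * (s * (k : G)⁻¹ * s⁻¹) := by group
    rw [h]
    exact K1.mul_mem k.2 (hn.conj_mem _ (K1.inv_mem k.2) s)⟩
  map_one' := by
    rw [← map_one (Abelianization.of (G := K1))]
    congr 1
    apply Subtype.ext
    show g * (((1 : K1) : G) * s * ((1 : K1) : G)⁻¹ * s⁻¹) * g⁻¹ = 1
    rw [Subgroup.coe_one]; group
  map_mul' k l := by
    have hk : g * (k : G) * g⁻¹ ∈ K1 := hn.conj_mem _ k.2 g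
    have hP : ∀ k : K1, g * (k * s * (k : G)⁻¹ * s⁻¹) * g⁻¹ ∈ K1 := by
      intro k
      refine hn.conj_mem _ ?_ g
      have h : (k : G) * s * (k : G)⁻¹ * s⁻¹ = k * (s * (k : G)⁻¹ * s⁻¹) := by group
      rw [h]
      exact K1.mul_mem k.2 (hn.conj_mem _ (K1.inv_mem k.2) s)
    have h : (⟨g * (((k * l : K1) : G) * s * ((k * l : K1) : G)⁻¹ * s⁻¹) * g⁻¹, hP (k * l)⟩ : K1) =
        (⟨g * (k : G) * g⁻¹, hk⟩ : K1) * ⟨g * (l * s * (l : G)⁻¹ * s⁻¹) * g⁻¹, hP l⟩ *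
          (⟨g * (k : G) * g⁻¹, hk⟩ : K1)⁻¹ * ⟨g * (k * s * (k : G)⁻¹ * s⁻¹) * g⁻¹, hP k⟩ := by
      apply Subtype.ext
      simp only [Subgroup.coe_mul, Subgroup.coe_inv]
      group
    show Abelianization.of (⟨g * (((k * l : K1) : G) * s * ((k * l : K1) : G)⁻¹ * s⁻¹) * g⁻¹,
      hP (k * l)⟩ : K1) = Abelianization.of (⟨g * (k * s * (k : G)⁻¹ * s⁻¹) * g⁻¹, hP k⟩ : K1) *
        Abelianization.of (⟨g * (l * s * (l : G)⁻¹ * s⁻¹) * g⁻¹, hP l⟩ : K1)
    rw [h, map_mul, map_mul, map_mul, map_inv, mul_comm (Abelianization.of _)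
      (Abelianization.of (⟨g * (l * s * (l : G)⁻¹ * s⁻¹) * g⁻¹, hP l⟩ : K1)),
      mul_inv_cancel_right, mul_comm]

theorem Ds_apply (K1 : Subgroup G) [hn : K1.Normal] (g s : G) (k : K1)
    (h : g * (k * s * (k : G)⁻¹ * s⁻¹) * g⁻¹ ∈ K1) :
    Ds K1 g s k = Abelianization.of ⟨g * (k * s * (k : G)⁻¹ * s⁻¹) * g⁻¹, h⟩ := rfl

theorem of_eq_one (K1 : Subgroup G) (x : K1) :
    Abelianization.of x = 1 ↔ (x : G) ∈ ⁅K1, K1⁆ := by
  rw [← Subgroup.map_subtype_commutator, ← MonoidHom.mem_ker, Abelianization.ker_of]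
  constructor
  · intro h
    exact Subgroup.mem_map_of_mem K1.subtype h
  · rintro ⟨y, hy, hxy⟩
    have : y = x := Subtype.ext hxy
    rwa [← this]

/-- a finite group separates a point from a subgroup of a finitely generated abelian group -/
theorem sepf {V : Type} [CommGroup V] [Group.FG V] (B : Subgroup V) (c : V) (hc : c ∉ B) :
    ∃ N : Subgroup V, N.FiniteIndex ∧ B ≤ N ∧ c ∉ N := by
  have h1 : Group.FG (V ⧸ B) := QuotientGroup.fg _
  have h2 : (QuotientGroup.mk' B c) ≠ 1 := by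
    intro h
    rw [← MonoidHom.mem_ker, QuotientGroup.ker_mk'] at h
    exact hc h
  obtain ⟨r, -, -, N, hN, hzN, hfin, -⟩ := resid (K := V ⧸ B) ∅ (fun p hp => absurd hp (by simp)) 2
        Nat.prime_two (by simp) (fun p hp => absurd hp (by simp)) (QuotientGroup.mk' B c) h2
  refine ⟨N.comap (QuotientGroup.mk' B), ?_, ?_, hzN⟩
  · have hNf : N.FiniteIndex := Subgroup.finiteIndex_of_finite_quotient
    refine ⟨?_⟩
    rw [Subgroup.index_comap_of_surjective N (QuotientGroup.mk'_surjective B)]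
    exact hNf.index_ne_zero
  · intro b hb
    show QuotientGroup.mk' B b ∈ N
    have h3 : QuotientGroup.mk' B b = 1 := by
      rw [← MonoidHom.mem_ker, QuotientGroup.ker_mk']
      exact hb
    rw [h3]
    exact N.one_mem

theorem comap_fi {A V : Type} [Group A] [CommGroup V] (N : Subgroup V) [N.FiniteIndex]
    (f : A →* V) : (N.comap f).FiniteIndex := by
  have h : N.comap f = ((QuotientGroup.mk' N).comp f).ker := by
    rw [← MonoidHom.comap_ker, QuotientGroup.ker_mk']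
  rw [h]
  have h2 : Finite (V ⧸ N) := Subgroup.finite_quotient_of_finiteIndex
  infer_instance

/-- one coset -/
theorem coset [hG : Group.FG G] (K1 : Subgroup G) [hn : K1.Normal] [K1.FiniteIndex]
    (K : Subgroup G) (hK : K ≤ K1) (S : Finset G) (hS : Subgroup.closure (S : Set G) = ⊤) (g : G)
    (hg : ∀ k ∈ K, ¬ ∀ x : G, ⁅g * k, x⁆ ∈ ⁅K1, K1⁆) :
    ∃ K' : Subgroup G, K'.Characteristic ∧ K'.FiniteIndex ∧
      ∀ k ∈ K, ¬ ∀ x : G, ⁅g * k, x⁆ ∈ K' ⊔ ⁅K1, K1⁆ := by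
  classical
  have hLK : ⁅K1, K1⁆ ≤ K1 := Subgroup.commutator_le_left K1 K1
  by_cases hs : ∀ s ∈ S, ⁅g, s⁆ ∈ K1
  · have hfgK1 : Group.FG K1 := Subgroup.fg_of_index_ne_zero K1
    have hfgA : Group.FG (Abelianization K1) :=
      Group.fg_of_surjective (f := Abelianization.of) QuotientGroup.mk_surjective
    obtain ⟨D, hD⟩ : ∃ D : K1 →* (S → Abelianization K1), D = MonoidHom.pi (fun s : S => Ds K1 g s) :=
      ⟨_, rfl⟩
    obtain ⟨B, hB⟩ : ∃ B, B = (K.subgroupOf K1).map D := ⟨_, rfl⟩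
    obtain ⟨c, hc⟩ : ∃ c : S → Abelianization K1,
      c = fun s => Abelianization.of ⟨⁅g, (s : G)⁆, hs s s.2⟩ := ⟨_, rfl⟩
    have key : ∀ (k : K1) (s : S) (h : ⁅g * (k : G), (s : G)⁆ ∈ K1),
        D k s * c s = Abelianization.of ⟨⁅g * (k : G), (s : G)⁆, h⟩ := by
      intro k s h
      have hP : g * (k * s * (k : G)⁻¹ * (s : G)⁻¹) * g⁻¹ ∈ K1 := by
        have h2 : g * (k * s * (k : G)⁻¹ * (s : G)⁻¹) * g⁻¹ = ⁅g * (k : G), (s : G)⁆ *
            ⁅g, (s : G)⁆⁻¹ := by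
          rw [commutatorElement_def, commutatorElement_def]; group
        rw [h2]
        exact K1.mul_mem h (K1.inv_mem (hs s s.2))
      have h1 : D k s = Ds K1 g s k := by rw [hD]; rfl
      rw [h1, Ds_apply K1 g s k hP, hc, ← map_mul]
      congr 1
      apply Subtype.ext
      show g * (k * s * (k : G)⁻¹ * (s : G)⁻¹) * g⁻¹ * ⁅g, (s : G)⁆ = ⁅g * (k : G), (s : G)⁆
      rw [commutatorElement_def, commutatorElement_def]; group
    have hmem : ∀ (k : K1) (s : S), ⁅g * (k : G), (s : G)⁆ ∈ K1 := by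
      intro k s
      have h2 : ⁅g * (k : G), (s : G)⁆ = (g * (k * (s * (k : G)⁻¹ * (s : G)⁻¹)) * g⁻¹) *
          ⁅g, (s : G)⁆ := by
        rw [commutatorElement_def, commutatorElement_def]; group
      rw [h2]
      exact K1.mul_mem (hn.conj_mem _ (K1.mul_mem k.2 (hn.conj_mem _ (K1.inv_mem k.2) _)) _)
        (hs s s.2)
    have hcB : c ∉ B := by
      intro h
      rw [hB] at h
      obtain ⟨k, hk, hkc⟩ := h
      rw [SetLike.mem_coe, Subgroup.mem_subgroupOf] at hk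
      apply hg (k : G)⁻¹ (K.inv_mem hk)
      have h1 : ∀ s ∈ S, ⁅g * (k : G)⁻¹, s⁆ ∈ ⁅K1, K1⁆ := by
        intro s hs'
        have h2 := key k⁻¹ ⟨s, hs'⟩ (hmem k⁻¹ ⟨s, hs'⟩)
        rw [map_inv, Pi.inv_apply, hkc, inv_mul_cancel] at h2
        exact (of_eq_one K1 _).1 h2.symm
      let R : Subgroup G :=
        { carrier := {x | ⁅g * (k : G)⁻¹, x⁆ ∈ ⁅K1, K1⁆}
          one_mem' := by
            show ⁅g * (k : G)⁻¹, 1⁆ ∈ ⁅K1, K1⁆
            rw [commutatorElement_one_right]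
            exact Subgroup.one_mem _
          mul_mem' := by
            intro x y hx hy
            show ⁅g * (k : G)⁻¹, x * y⁆ ∈ ⁅K1, K1⁆
            have e : ⁅g * (k : G)⁻¹, x * y⁆ =
                ⁅g * (k : G)⁻¹, x⁆ * (x * ⁅g * (k : G)⁻¹, y⁆ * x⁻¹) := by
              simp only [commutatorElement_def]; group
            rw [e]
            exact Subgroup.mul_mem _ hx ((inferInstance : (⁅K1, K1⁆ : Subgroup G).Normal).conj_mem _ hy _)
          inv_mem' := by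
            intro x hx
            show ⁅g * (k : G)⁻¹, x⁻¹⁆ ∈ ⁅K1, K1⁆
            have e : ⁅g * (k : G)⁻¹, x⁻¹⁆ = x⁻¹ * ⁅g * (k : G)⁻¹, x⁆⁻¹ * x⁻¹⁻¹ := by
              simp only [commutatorElement_def]; group
            rw [e]
            exact (inferInstance : (⁅K1, K1⁆ : Subgroup G).Normal).conj_mem _
              (Subgroup.inv_mem _ hx) _ }
      have hR : R = ⊤ := by
        rw [eq_top_iff, ← hS, Subgroup.closure_le]
        exact h1
      intro x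
      have hx : x ∈ R := by rw [hR]; trivial
      exact hx
    obtain ⟨N, hNf, hBN, hcN⟩ := sepf B c hcB
    -- the finite-index subgroup of `K1`
    obtain ⟨P, hP⟩ : ∃ P : Subgroup K1, P = ⨅ s : S,
      (N.comap ((MonoidHom.mulSingle (fun _ : S => Abelianization K1) s).comp
        (Abelianization.of (G := K1)))) := ⟨_, rfl⟩
    have hPf : P.FiniteIndex := by
      rw [hP]
      exact Subgroup.finiteIndex_iInf (fun s => comap_fi N _)
    have h1 : (P.map K1.subtype).FiniteIndex := by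
      refine ⟨?_⟩
      rw [Subgroup.index_map_subtype]
      exact mul_ne_zero hPf.index_ne_zero Subgroup.FiniteIndex.index_ne_zero
    have h2 : (P.map K1.subtype).normalCore.FiniteIndex := inferInstance
    obtain ⟨K', hK'1, hK'2, hK'3⟩ := char_core (P.map K1.subtype).normalCore
    refine ⟨K', hK'1, hK'2, fun k hk hx => hcN ?_⟩
    have h3 : (fun s : S => Abelianization.of (⟨⁅g * k, (s : G)⁆, hmem ⟨k, hK hk⟩ s⟩ : K1)) ∈ N := by
      have h4 : ∀ s : S, (Pi.mulSingle s (Abelianization.of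
          (⟨⁅g * k, (s : G)⁆, hmem ⟨k, hK hk⟩ s⟩ : K1)) : S → Abelianization K1) ∈ N := by
        intro s
        have h5 := hx s
        have h6 : (K' ⊔ ⁅K1, K1⁆ : Subgroup G) ≤ P.map K1.subtype := by
          refine sup_le (fun z hz => Subgroup.normalCore_le _ (hK'3 hz)) ?_
          intro z hz
          refine ⟨⟨z, hLK hz⟩, ?_, rfl⟩
          rw [SetLike.mem_coe, hP, Subgroup.mem_iInf]
          intro t
          show (MonoidHom.mulSingle (fun _ : S => Abelianization K1) t)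
            (Abelianization.of (⟨z, hLK hz⟩ : K1)) ∈ N
          rw [(of_eq_one K1 _).2 hz, map_one]
          exact N.one_mem
        obtain ⟨z, hz, hz'⟩ := h6 h5
        have h7 : z = ⟨⁅g * k, (s : G)⁆, hmem ⟨k, hK hk⟩ s⟩ := Subtype.ext hz'
        rw [← h7]
        rw [SetLike.mem_coe, hP, Subgroup.mem_iInf] at hz
        exact hz s
      rw [← Finset.univ_prod_mulSingle (fun s : S =>
        Abelianization.of (⟨⁅g * k, (s : G)⁆, hmem ⟨k, hK hk⟩ s⟩ : K1))]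
      exact Subgroup.prod_mem _ (fun s _ => h4 s)
    have h8 : (fun s : S => Abelianization.of (⟨⁅g * k, (s : G)⁆, hmem ⟨k, hK hk⟩ s⟩ : K1)) =
        D ⟨k, hK hk⟩ * c := by
      funext s
      exact (key ⟨k, hK hk⟩ s _).symm
    rw [h8] at h3
    have h9 : D ⟨k, hK hk⟩ ∈ N := by
      apply hBN
      rw [hB]
      exact Subgroup.mem_map_of_mem D hk
    exact (Subgroup.mul_mem_cancel_left N h9).1 h3
  · push Not at hs
    obtain ⟨s, -, hs⟩ := hs
    obtain ⟨K', h1, h2, h3⟩ := char_core K1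
    refine ⟨K', h1, h2, fun k hk hx => hs ?_⟩
    have h4 : ⁅g * k, s⁆ ∈ K1 := (sup_le h3 hLK) (hx s)
    have h5 : ⁅g, s⁆ = (g * (k * (s * k⁻¹ * s⁻¹)) * g⁻¹)⁻¹ * ⁅g * k, s⁆ := by
      simp only [commutatorElement_def]; group
    rw [h5]
    exact K1.mul_mem (K1.inv_mem (hn.conj_mem _ (K1.mul_mem (hK hk)
      (hn.conj_mem _ (K1.inv_mem (hK hk)) _)) _)) h4

/-- elements central modulo a deep finite quotient come from elements central in `G / [K1, K1]` -/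
theorem main [hG : Group.FG G] (K1 : Subgroup G) [hn : K1.Normal] [K1.FiniteIndex]
    (K : Subgroup G) [hKn : K.Normal] [hKf : K.FiniteIndex] (hK : K ≤ K1) :
    ∃ K' : Subgroup G, K'.Characteristic ∧ K'.FiniteIndex ∧
      ∀ y : G, (∀ x : G, ⁅y, x⁆ ∈ K' ⊔ ⁅K1, K1⁆) →
        ∃ w : G, (∀ x : G, ⁅w, x⁆ ∈ ⁅K1, K1⁆) ∧ w⁻¹ * y ∈ K := by
  obtain ⟨S, hS⟩ := hG.out
  have hfin : Finite (G ⧸ K) := Subgroup.finite_quotient_of_finiteIndex
  have h1 : ∀ q : G ⧸ K, ∃ K' : Subgroup G, K'.Characteristic ∧ K'.FiniteIndex ∧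
      ∀ y : G, (QuotientGroup.mk' K y = q) → (∀ x : G, ⁅y, x⁆ ∈ K' ⊔ ⁅K1, K1⁆) →
        ∃ w : G, (∀ x : G, ⁅w, x⁆ ∈ ⁅K1, K1⁆) ∧ w⁻¹ * y ∈ K := by
    intro q
    obtain ⟨g, rfl⟩ := QuotientGroup.mk'_surjective K q
    by_cases hg : ∃ k ∈ K, ∀ x : G, ⁅g * k, x⁆ ∈ ⁅K1, K1⁆
    · obtain ⟨k, hk, hkx⟩ := hg
      refine ⟨⊤, inferInstance, inferInstance, fun y hy _ => ⟨g * k, hkx, ?_⟩⟩
      have h2 : QuotientGroup.mk' K ((g * k)⁻¹ * y) = 1 := by
        have h3 : QuotientGroup.mk' K k = 1 := by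
          rw [← MonoidHom.mem_ker, QuotientGroup.ker_mk']
          exact hk
        rw [map_mul, map_inv, map_mul, h3, mul_one, hy, inv_mul_cancel]
      rwa [← MonoidHom.mem_ker, QuotientGroup.ker_mk'] at h2
    · have hg' : ∀ k ∈ K, ¬ ∀ x : G, ⁅g * k, x⁆ ∈ ⁅K1, K1⁆ := fun k hk h => hg ⟨k, hk, h⟩
      obtain ⟨K', hK'1, hK'2, hK'3⟩ := coset K1 K hK S hS g hg'
      refine ⟨K', hK'1, hK'2, fun y hy hx => ?_⟩
      exfalso
      have h2 : g⁻¹ * y ∈ K := by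
        rw [← QuotientGroup.ker_mk' K, MonoidHom.mem_ker, map_mul, map_inv, hy, inv_mul_cancel]
      apply hK'3 _ h2
      rw [mul_inv_cancel_left]
      exact hx
  choose F hF1 hF2 hF3 using h1
  refine ⟨⨅ q, F q, ?_, Subgroup.finiteIndex_iInf (fun q => hF2 q), ?_⟩
  · rw [Subgroup.characteristic_iff_le_comap]
    intro φ x hx
    rw [Subgroup.mem_comap, Subgroup.mem_iInf]
    intro q
    rw [Subgroup.mem_iInf] at hx
    exact (Subgroup.characteristic_iff_le_comap.1 (hF1 q)) φ (hx q)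
  · intro y hy
    refine hF3 (QuotientGroup.mk' K y) y rfl (fun x => ?_)
    exact (sup_le_sup_right (iInf_le F _) _) (hy x)

/-- the outer form -/
theorem outer [hG : Group.FG G] (K1 : Subgroup G) [hn : K1.Normal] [hf1 : K1.FiniteIndex]
    (H : Subgroup (MulAut G)) (K : Subgroup G) (hKc : K.Characteristic) (hKf : K.FiniteIndex)
    (h : ∀ ψ : MulAut G, Tr K ψ → Tr ⁅K1, K1⁆ ψ → ψ ∈ H)
    (hi : ∀ x : G, MulAut.conj x ∈ H) :
    ∃ K' : Subgroup G, K'.Characteristic ∧ K'.FiniteIndex ∧ K' ≤ K ∧ ∀ ψ : MulAut G,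
      (∃ y : G, ∀ x : G, ψ x * (y * x * y⁻¹)⁻¹ ∈ K') → Tr ⁅K1, K1⁆ ψ → ψ ∈ H := by
  obtain ⟨C, hC1, hC2, hC3⟩ := char_core K1
  have hKC : (K ⊓ C).Characteristic := inf_char hKc hC1
  have hKn : (K ⊓ C).Normal := inferInstance
  have hLn : (⁅K1, K1⁆ : Subgroup G).Normal := inferInstance
  have hKKn : K.Normal := inferInstance
  obtain ⟨K', hK'1, hK'2, hK'3⟩ := main K1 (K ⊓ C) (inf_le_right.trans hC3)
  refine ⟨K' ⊓ K, inf_char hK'1 hKc, inferInstance, inf_le_right, fun ψ hψ hψL => ?_⟩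
  obtain ⟨y, hy⟩ := hψ
  obtain ⟨w, hw, hwy⟩ := hK'3 y (fun x => by
    have h1 : ⁅y, x⁆ = (ψ x * (y * x * y⁻¹)⁻¹)⁻¹ * (ψ x * x⁻¹) := by
      rw [commutatorElement_def]; group
    rw [h1]
    exact Subgroup.mul_mem_sup (K'.inv_mem (hy x).1) (hψL x))
  have h2 : ∀ x, ((MulAut.conj w)⁻¹ * ψ) x = w⁻¹ * ψ x * w := by
    intro x
    rw [MulAut.mul_apply, MulAut.conj_inv_apply]
  have h1 : (MulAut.conj w)⁻¹ * ψ ∈ H := by
    apply h
    · intro x
      rw [h2]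
      have hu : w⁻¹ * y ∈ K := hwy.1
      have h4 : w⁻¹ * ψ x * w * x⁻¹ = (w⁻¹ * (ψ x * (y * x * y⁻¹)⁻¹) * w⁻¹⁻¹) *
          ((w⁻¹ * y) * (x * (w⁻¹ * y)⁻¹ * x⁻¹)) := by group
      rw [h4]
      exact K.mul_mem (hKKn.conj_mem _ (hy x).2 w⁻¹)
        (K.mul_mem hu (hKKn.conj_mem _ (K.inv_mem hu) x))
    · intro x
      rw [h2]
      have h4 : w⁻¹ * ψ x * w * x⁻¹ = (w⁻¹ * (ψ x * x⁻¹) * w⁻¹⁻¹) *
          (w⁻¹ * ⁅w, x⁆⁻¹ * w⁻¹⁻¹) := by
        rw [commutatorElement_def]; group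
      rw [h4]
      exact Subgroup.mul_mem _ (hLn.conj_mem _ (hψL x) w⁻¹)
        (hLn.conj_mem _ (Subgroup.inv_mem _ (hw x)) w⁻¹)
  have h5 : ψ = MulAut.conj w * ((MulAut.conj w)⁻¹ * ψ) := by group
  rw [h5]
  exact H.mul_mem (hi w) h1

/-- a subgroup of finite index in the group of the automorphisms trivial on `G / [K1, K1]` -/
theorem fin [Group.FG G] (K1 : Subgroup G) [K1.Normal] [K1.FiniteIndex]
    (N : Subgroup (MulAut G)) (hN : N.relIndex (TT ⁅K1, K1⁆) ≠ 0) (c : ℕ) (hc : 1 ≤ c)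
    (h : GK.PCK K1 N c) : GK.PCK K1 N 1 := by
  refine GK.steps K1 N (N.relIndex (TT ⁅K1, K1⁆)).factorial (Nat.factorial_pos _) ?_ c hc h
  intro ψ hψ
  obtain ⟨n, hn, hn', h1⟩ := Subgroup.exists_pow_mem_of_relIndex_ne_zero hN (mem_TT.2 hψ)
  obtain ⟨k, hk⟩ := Nat.dvd_factorial hn hn'
  rw [hk, pow_mul]
  exact N.pow_mem h1.1 k

end Cen

end Pool.Agent.TH933.JT
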