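import Pool.Agent.TH610.CSP.Sep
import Pool.Agent.TH610.CSP.Res
import Pool.Agent.Helper111.EN.NS

/-! # Steps down the Johnson filtration of an arbitrary finitely generated group

This is the argument of `Pool/Agent/TH610/CSP/Step.lean` and `Res.lean` (free groups), written for
an arbitrary finitely generated group `G` and for subgroups `N` of `Aut G` of finite relative index. -/

set_option autoImplicit false

open scoped commutatorElement

namespace Pool.Agent.TH933.JT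

open Pool.Agent.TH610.CSP Pool.Agent.Helper111.EN

variable {G : Type} [Group G]

/-- `ψ` acts trivially on `G / K` -/
def Tr (K : Subgroup G) (ψ : MulAut G) : Prop := ∀ x : G, ψ x * x⁻¹ ∈ K

/-- the automorphisms which act trivially on `G / K` -/
def TT (K : Subgroup G) : Subgroup (MulAut G) where
  carrier := {ψ | Tr K ψ}
  one_mem' := by
    intro x
    simp
  mul_mem' := by
    intro ψ φ hψ hφ x
    have h : (ψ * φ) x * x⁻¹ = (ψ (φ x) * (φ x)⁻¹) * (φ x * x⁻¹) := by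
      rw [MulAut.mul_apply]; group
    rw [h]
    exact K.mul_mem (hψ _) (hφ _)
  inv_mem' := by
    intro ψ hψ x
    have h := K.inv_mem (hψ (ψ⁻¹ x))
    rw [MulAut.apply_inv_self, mul_inv_rev, inv_inv] at h
    exact h

theorem mem_TT {K : Subgroup G} {ψ : MulAut G} : ψ ∈ TT K ↔ Tr K ψ := Iff.rfl

/-- the centre of a group is commutative -/
noncomputable instance cg {Q : Type*} [Group Q] : CommGroup (Subgroup.center Q) where
  mul_comm a b := Subtype.ext (Subgroup.mem_center_iff.1 b.2 a)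

section
variable {G0 G1 : Subgroup G} [hn : G1.Normal]

theorem pi_central (h01 : ∀ x ∈ G0, ∀ y : G, ⁅x, y⁆ ∈ G1) {x : G} (hx : x ∈ G0) :
    QuotientGroup.mk' G1 x ∈ Subgroup.center (G ⧸ G1) := by
  rw [Subgroup.mem_center_iff]
  intro g
  obtain ⟨y, rfl⟩ := QuotientGroup.mk'_surjective G1 g
  rw [← map_mul, ← map_mul]
  have h2 : (QuotientGroup.mk' G1) ⁅x, y⁆ = 1 := by
    rw [← MonoidHom.mem_ker, QuotientGroup.ker_mk']
    exact h01 x hx y
  have h3 : x * y = ⁅x, y⁆ * (y * x) := by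
    rw [commutatorElement_def]; group
  rw [h3, map_mul _ ⁅x, y⁆, h2, one_mul]

/-- the homomorphism `x ↦ ψ(x) x⁻¹` modulo `G1` -/
noncomputable def del (h01 : ∀ x ∈ G0, ∀ y : G, ⁅x, y⁆ ∈ G1) (ψ : TT G0) :
    G →* Subgroup.center (G ⧸ G1) where
  toFun x := ⟨QuotientGroup.mk' G1 ((ψ : MulAut G) x * x⁻¹), pi_central h01 (ψ.2 x)⟩
  map_one' := by
    apply Subtype.ext
    show QuotientGroup.mk' G1 ((ψ : MulAut G) 1 * 1⁻¹) = 1
    rw [map_one, inv_one, mul_one, map_one]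
  map_mul' x y := by
    apply Subtype.ext
    show QuotientGroup.mk' G1 ((ψ : MulAut G) (x * y) * (x * y)⁻¹) =
      QuotientGroup.mk' G1 ((ψ : MulAut G) x * x⁻¹) *
        QuotientGroup.mk' G1 ((ψ : MulAut G) y * y⁻¹)
    have h1 := Subgroup.mem_center_iff.1 (pi_central h01 (ψ.2 y)) (QuotientGroup.mk' G1 x⁻¹)
    have h2 : (ψ : MulAut G) (x * y) * (x * y)⁻¹ =
        (ψ : MulAut G) x * (((ψ : MulAut G) y * y⁻¹) * x⁻¹) := by
      rw [map_mul]; group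
    rw [h2, map_mul (QuotientGroup.mk' G1) ((ψ : MulAut G) x), map_mul (QuotientGroup.mk' G1) _ x⁻¹,
      ← h1, ← mul_assoc, ← map_mul]

theorem del_val (h01 : ∀ x ∈ G0, ∀ y : G, ⁅x, y⁆ ∈ G1) (ψ : TT G0) (x : G) :
    ((del h01 ψ x : Subgroup.center (G ⧸ G1)) : G ⧸ G1) =
      QuotientGroup.mk' G1 ((ψ : MulAut G) x * x⁻¹) := rfl

theorem del_comm (h01 : ∀ x ∈ G0, ∀ y : G, ⁅x, y⁆ ∈ G1) (hc : G0 ≤ commutator G)
    (ψ : TT G0) {x : G} (hx : x ∈ G0) : del h01 ψ x = 1 :=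
  Abelianization.commutator_subset_ker (del h01 ψ) (hc hx)

/-- the Johnson homomorphism, for a generating family `s` -/
noncomputable def tau (h01 : ∀ x ∈ G0, ∀ y : G, ⁅x, y⁆ ∈ G1) (hc : G0 ≤ commutator G)
    (S : Finset G) : TT G0 →* (S → Subgroup.center (G ⧸ G1)) where
  toFun ψ i := del h01 ψ i
  map_one' := by
    funext i
    apply Subtype.ext
    show QuotientGroup.mk' G1 ((1 : MulAut G) (i : G) * (i : G)⁻¹) = 1
    rw [MulAut.one_apply, mul_inv_cancel, map_one]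
  map_mul' ψ φ := by
    funext i
    show del h01 (ψ * φ) i = del h01 ψ i * del h01 φ i
    obtain ⟨x, hx⟩ : ∃ x : G, x = i := ⟨_, rfl⟩
    rw [← hx]
    have h1 : del h01 ψ ((φ : MulAut G) x) = del h01 ψ x := by
      have h2 : (φ : MulAut G) x = ((φ : MulAut G) x * x⁻¹) * x := by group
      rw [h2, map_mul, del_comm h01 hc ψ (φ.2 x), one_mul]
    rw [← h1]
    apply Subtype.ext
    rw [Subgroup.coe_mul, del_val, del_val, del_val, ← map_mul]
    congr 1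
    rw [Subgroup.coe_mul, MulAut.mul_apply]
    group

theorem tau_apply (h01 : ∀ x ∈ G0, ∀ y : G, ⁅x, y⁆ ∈ G1) (hc : G0 ≤ commutator G)
    (S : Finset G) (ψ : TT G0) (i : S) : tau h01 hc S ψ i = del h01 ψ i := rfl

theorem triv_of_tau (h01 : ∀ x ∈ G0, ∀ y : G, ⁅x, y⁆ ∈ G1) (hc : G0 ≤ commutator G)
    (S : Finset G) (hS : Subgroup.closure (S : Set G) = ⊤)
    {ψ : TT G0} (h : tau h01 hc S ψ = 1) : Tr G1 (ψ : MulAut G) := by
  have h1 : del h01 ψ = 1 := by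
    apply MonoidHom.eq_of_eqOn_dense hS
    intro x hx
    exact congrFun h ⟨x, hx⟩
  intro x
  have h2 : ((del h01 ψ x : Subgroup.center (G ⧸ G1)) : G ⧸ G1) = 1 := by rw [h1]; rfl
  rw [del_val, ← MonoidHom.mem_ker, QuotientGroup.ker_mk'] at h2
  exact h2

/-- the step, in general form -/
theorem gen (h01 : ∀ x ∈ G0, ∀ y : G, ⁅x, y⁆ ∈ G1) (hc : G0 ≤ commutator G)
    (S : Finset G) (hS : Subgroup.closure (S : Set G) = ⊤)
    [hfg : Group.FG (Subgroup.center (G ⧸ G1))]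
    (hr : ∀ M : ℕ, 0 < M → ∃ K : Subgroup G, K.Characteristic ∧
      K.FiniteIndex ∧ ∀ x ∈ K, x ∈ G0 → ∃ y ∈ G0, x * (y ^ M)⁻¹ ∈ G1)
    (N : Subgroup (MulAut G)) (e : ℕ) (he : 0 < e)
    (hN : ∀ ψ : MulAut G, Tr G0 ψ → ψ ^ e ∈ N) (K1 : Subgroup G)
    (hK1 : ∀ ψ : MulAut G, Tr K1 ψ → Tr G1 ψ → ψ ∈ N) :
    ∃ K2 : Subgroup G, K2.Characteristic ∧ K2.FiniteIndex ∧
      ∀ ψ : MulAut G, Tr K1 ψ → Tr K2 ψ → Tr G0 ψ → ψ ∈ N := by
  obtain ⟨A, hA⟩ : ∃ A, A = ((TT K1).subgroupOf (TT G0)).map (tau h01 hc S) := ⟨_, rfl⟩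
  obtain ⟨L, hL⟩ : ∃ L, L = ((TT K1 ⊓ N).subgroupOf (TT G0)).map (tau h01 hc S) := ⟨_, rfl⟩
  have hLA : L ≤ A := by
    rw [hL, hA]
    apply Subgroup.map_mono
    intro ψ hψ
    rw [Subgroup.mem_subgroupOf] at hψ ⊢
    exact hψ.1
  have hAL : ∀ a ∈ A, a ^ e ∈ L := by
    rw [hL, hA]
    rintro _ ⟨ψ, hψ, rfl⟩
    refine ⟨ψ ^ e, ?_, map_pow _ _ _⟩
    rw [SetLike.mem_coe, Subgroup.mem_subgroupOf] at hψ ⊢
    rw [Subgroup.coe_pow]
    have hq : (ψ : MulAut G) ^ e ∈ N := hN _ ψ.2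
    exact ⟨Subgroup.pow_mem _ hψ _, hq⟩
  obtain ⟨M, hM, hM'⟩ := t_sep S (Subgroup.center (G ⧸ G1)) A L e he hLA hAL
  obtain ⟨K2, hK2c, hK2f, hK2⟩ := hr M hM
  refine ⟨K2, hK2c, hK2f, ?_⟩
  intro ψ hψ1 hψ2 hψc
  choose y hy hy' using fun i : S => hK2 _ (hψ2 i) (hψc i)
  obtain ⟨ψ', hψ'⟩ : ∃ ψ' : TT G0, (ψ' : MulAut G) = ψ := ⟨⟨ψ, hψc⟩, rfl⟩
  have h1 : tau h01 hc S ψ' = (fun i => (⟨QuotientGroup.mk' G1 (y i), pi_central h01 (hy i)⟩ :
      Subgroup.center (G ⧸ G1))) ^ M := by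
    funext i
    apply Subtype.ext
    rw [tau_apply, del_val, hψ', Pi.pow_apply, Subgroup.coe_pow]
    rw [← map_pow, ← mul_inv_eq_one, ← map_inv, ← map_mul, ← MonoidHom.mem_ker,
      QuotientGroup.ker_mk']
    exact hy' i
  have h2 : tau h01 hc S ψ' ∈ A := by
    rw [hA]
    refine ⟨ψ', ?_, rfl⟩
    rw [SetLike.mem_coe, Subgroup.mem_subgroupOf, hψ']
    exact hψ1
  rw [h1] at h2
  have h2' := hM' _ h2
  rw [hL] at h2'
  obtain ⟨φ, hφ, hφ'⟩ := h2'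
  rw [← h1] at hφ'
  rw [SetLike.mem_coe, Subgroup.mem_subgroupOf] at hφ
  have h3 : tau h01 hc S (φ⁻¹ * ψ') = 1 := by
    rw [map_mul, map_inv, hφ', inv_mul_cancel]
  have h4 := triv_of_tau h01 hc S hS h3
  have h5 : Tr K1 ((φ⁻¹ * ψ' : TT G0) : MulAut G) := by
    rw [← mem_TT, Subgroup.coe_mul, Subgroup.coe_inv, hψ']
    exact Subgroup.mul_mem _ (Subgroup.inv_mem _ hφ.1) hψ1
  have h6 := hK1 _ h5 h4
  have h7 : ψ = (φ : MulAut G) * ((φ⁻¹ * ψ' : TT G0) : MulAut G) := by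
    rw [Subgroup.coe_mul, Subgroup.coe_inv, mul_inv_cancel_left, hψ']
  rw [h7]
  exact N.mul_mem hφ.2 h6

end

/-- the lower central series, `ga 0 = G`, `ga 1 = [G, G]` -/
abbrev ga (G : Type) [Group G] (c : ℕ) : Subgroup G := (⊤ : Subgroup G).lowerCentralSeries c

theorem nilp (G : Type) [Group G] (c : ℕ) : Group.IsNilpotent (G ⧸ ga G c) := by
  rw [Subgroup.nilpotent_iff_lowerCentralSeries]
  refine ⟨c, ?_⟩
  have h := Subgroup.map_lowerCentralSeries (⊤ : Subgroup G) (QuotientGroup.mk' (ga G c)) c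
  rw [← MonoidHom.range_eq_map, MonoidHom.range_eq_top.2 (QuotientGroup.mk'_surjective _)] at h
  rw [← h, Subgroup.map_eq_bot_iff, QuotientGroup.ker_mk']

theorem fgc (G : Type) [Group G] [Group.FG G] (c : ℕ) : Group.FG (Subgroup.center (G ⧸ ga G c)) := by
  have h1 : Group.FG (G ⧸ ga G c) := QuotientGroup.fg _
  have h := Pool.Agent.Helper111.EN.NSc.NS_of_nilpotent_fg (⊤ : Subgroup (G ⧸ ga G c))
    (Group.isNilpotent_top.2 (nilp G c)) (Group.fg_def.1 h1)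
  exact (Group.fg_iff_subgroup_fg _).2 (h _ le_top)

theorem inf_char {H K : Subgroup G} (hH : H.Characteristic)
    (hK : K.Characteristic) : (H ⊓ K).Characteristic := by
  rw [Subgroup.characteristic_iff_comap_eq] at hH hK ⊢
  intro φ
  rw [Subgroup.comap_inf, hH φ, hK φ]

theorem h01 (c : ℕ) : ∀ x ∈ ga G c, ∀ y : G, ⁅x, y⁆ ∈ ga G (c + 1) := by
  intro x hx y
  exact Subgroup.commutator_mem_commutator hx (Subgroup.mem_top y)

theorem le_comm {c : ℕ} (hc : 1 ≤ c) : ga G c ≤ commutator G := by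
  rw [← Subgroup.top_lowerCentralSeries_one]
  exact Subgroup.lowerCentralSeries_antitone _ hc

/-- every finite-index normal subgroup of a finitely generated group contains a characteristic
finite-index subgroup -/
theorem char_core [hG : Group.FG G] (K0 : Subgroup G) [K0.Normal] [K0.FiniteIndex] :
    ∃ K : Subgroup G, K.Characteristic ∧ K.FiniteIndex ∧ K ≤ K0 := by
  obtain ⟨S, hS⟩ := hG.out
  have h1 : Finite (G ⧸ K0) := Subgroup.finite_quotient_of_finiteIndex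
  have h2 : Finite (G →* G ⧸ K0) := by
    apply Finite.of_injective (fun (f : G →* G ⧸ K0) (s : S) => f s)
    intro f g hfg
    apply MonoidHom.eq_of_eqOn_dense hS
    intro x hx
    exact congrFun hfg ⟨x, hx⟩
  refine ⟨⨅ f : G →* G ⧸ K0, f.ker, ?_, ?_, ?_⟩
  · rw [Subgroup.characteristic_iff_le_comap]
    intro φ x hx
    rw [Subgroup.mem_comap, Subgroup.mem_iInf]
    intro f
    rw [Subgroup.mem_iInf] at hx
    exact hx (f.comp φ.toMonoidHom)
  · exact Subgroup.finiteIndex_iInf (fun f => inferInstance)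
  · intro x hx
    rw [Subgroup.mem_iInf] at hx
    have h3 := hx (QuotientGroup.mk' K0)
    rwa [QuotientGroup.ker_mk'] at h3

theorem res [hG : Group.FG G] (c M : ℕ) (hM : 0 < M) : ∃ K : Subgroup G, K.Characteristic ∧
    K.FiniteIndex ∧ ∀ x ∈ K, x ∈ ga G c → ∃ y ∈ ga G c, x * (y ^ M)⁻¹ ∈ ga G (c + 1) := by
  have hnorm : (ga G (c + 1)).Normal := inferInstance
  obtain ⟨q, hq⟩ : ∃ q : G →* G ⧸ ga G (c + 1), q = QuotientGroup.mk' _ := ⟨_, rfl⟩
  have hqs : Function.Surjective q := hq ▸ QuotientGroup.mk'_surjective _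
  have hqk : ∀ x, q x = 1 ↔ x ∈ ga G (c + 1) := by
    intro x
    rw [hq, ← MonoidHom.mem_ker, QuotientGroup.ker_mk']
  have hnil : Group.IsNilpotent (G ⧸ ga G (c + 1)) := nilp G (c + 1)
  have hfg : Group.FG (G ⧸ ga G (c + 1)) := QuotientGroup.fg _
  obtain ⟨Z, hZdef⟩ : ∃ Z : Subgroup (G ⧸ ga G (c + 1)), Z = (ga G c).map q := ⟨_, rfl⟩
  have hZc : Z ≤ Subgroup.center (G ⧸ ga G (c + 1)) := by
    rw [hZdef]
    rintro z ⟨y, hy, rfl⟩
    rw [hq]
    exact pi_central (h01 c) hy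
  have hRn : (cpow Z hZc M).Normal := cpow_normal Z hZc M
  obtain ⟨p, hp⟩ : ∃ p : (G ⧸ ga G (c + 1)) →* (G ⧸ ga G (c + 1)) ⧸ cpow Z hZc M,
    p = QuotientGroup.mk' _ := ⟨_, rfl⟩
  have hps : Function.Surjective p := hp ▸ QuotientGroup.mk'_surjective _
  have hpk : ∀ x, p x = 1 ↔ x ∈ cpow Z hZc M := by
    intro x
    rw [hp, ← MonoidHom.mem_ker, QuotientGroup.ker_mk']
  have hfg2 : Group.FG ((G ⧸ ga G (c + 1)) ⧸ cpow Z hZc M) := QuotientGroup.fg _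
  have hnil2 : Group.IsNilpotent ((G ⧸ ga G (c + 1)) ⧸ cpow Z hZc M) := inferInstance
  obtain ⟨Z', hZ'⟩ : ∃ Z' : Subgroup ((G ⧸ ga G (c + 1)) ⧸ cpow Z hZc M), Z' = Z.map p :=
    ⟨_, rfl⟩
  have hfin : Finite Z' := by
    have hNS := NSc.NS_of_nilpotent_fg
      (⊤ : Subgroup ((G ⧸ ga G (c + 1)) ⧸ cpow Z hZc M)) (Group.isNilpotent_top.2 hnil2) hfg2.out
    have h1 : Group.FG Z' := (Group.fg_iff_subgroup_fg _).2 (hNS Z' le_top)
    refine finite_of_fg_nilpotent Z' ?_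
    rintro ⟨z, hz⟩
    rw [isOfFinOrder_iff_pow_eq_one]
    refine ⟨M, hM, ?_⟩
    apply Subtype.ext
    show z ^ M = 1
    rw [hZ'] at hz
    obtain ⟨y, hy, rfl⟩ := hz
    rw [← map_pow, hpk]
    exact ⟨y, hy, rfl⟩
  obtain ⟨N, hN, hNf, hNZ⟩ := avoid Z'
  have h5 : (N.comap (p.comp q)).Normal := hN.comap _
  have h6 : (N.comap (p.comp q)).FiniteIndex := by
    refine ⟨?_⟩
    rw [Subgroup.index_comap_of_surjective N (f := p.comp q) (hps.comp hqs)]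
    exact hNf.index_ne_zero
  obtain ⟨K, hK1, hK2, hK3⟩ := char_core (N.comap (p.comp q))
  refine ⟨K, hK1, hK2, fun x hx hxc => ?_⟩
  have h7 : p (q x) ∈ N := hK3 hx
  have h8 : q x ∈ Z := by rw [hZdef]; exact Subgroup.mem_map_of_mem q hxc
  have h9 : p (q x) ∈ Z' := by rw [hZ']; exact Subgroup.mem_map_of_mem p h8
  have h10 := (hpk _).mp (hNZ _ h9 h7)
  obtain ⟨u, hu, hux⟩ := h10
  rw [hZdef] at hu
  obtain ⟨y, hy, rfl⟩ := hu
  refine ⟨y, hy, (hqk _).mp ?_⟩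
  rw [map_mul, map_inv, map_pow, hux, mul_inv_cancel]

/-- `N` contains a congruence subgroup of the `c`-th Johnson kernel -/
def PC (N : Subgroup (MulAut G)) (c : ℕ) : Prop :=
  ∃ K : Subgroup G, K.Characteristic ∧ K.FiniteIndex ∧
    ∀ ψ : MulAut G, Tr K ψ → Tr (ga G c) ψ → ψ ∈ N

theorem Tr_mono {K L : Subgroup G} (h : K ≤ L) {ψ : MulAut G} (hψ : Tr K ψ) : Tr L ψ :=
  fun x => h (hψ x)

theorem step [Group.FG G] {c : ℕ} (hc : 1 ≤ c) (N : Subgroup (MulAut G)) (e : ℕ) (he : 0 < e)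
    (hN : ∀ ψ : MulAut G, Tr (commutator G) ψ → ψ ^ e ∈ N) (h : PC N (c + 1)) : PC N c := by
  obtain ⟨K1, hK1c, hK1f, hK1⟩ := h
  obtain ⟨S, hS⟩ := (inferInstance : Group.FG G).out
  have hfg := fgc G (c + 1)
  obtain ⟨K2, hK2c, hK2f, hK2⟩ := gen (G0 := ga G c) (G1 := ga G (c + 1)) (h01 c) (le_comm hc)
    S hS (fun M hM => res c M hM) N e he (fun ψ hψ => hN ψ (Tr_mono (le_comm hc) hψ)) K1 hK1
  exact ⟨K1 ⊓ K2, inf_char hK1c hK2c, inferInstance,
    fun ψ hψ hψc => hK2 ψ (fun x => (hψ x).1) (fun x => (hψ x).2) hψc⟩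

/-- all the steps together -/
theorem steps [Group.FG G] (N : Subgroup (MulAut G)) (e : ℕ) (he : 0 < e)
    (hN : ∀ ψ : MulAut G, Tr (commutator G) ψ → ψ ^ e ∈ N) :
    ∀ c : ℕ, 1 ≤ c → PC N c → PC N 1 := by
  intro c hc
  induction c, hc using Nat.le_induction with
  | base => exact id
  | succ c hc ih => exact fun h => ih (step hc N e he hN h)

end Pool.Agent.TH933.JT
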