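import Pool.Agent.TH933.JT.Gen
import Pool.Agent.TH610.CSP.GRes

/-! # Steps down the lower central series of a finite-index normal subgroup

The argument of `Pool/Agent/TH610/CSP/GStep.lean` and `GRes.lean` (free groups), written for an
arbitrary finitely generated group `G` and for subgroups `N` of `Aut G` of finite relative index. -/

set_option autoImplicit false

open scoped commutatorElement

namespace Pool.Agent.TH933.JT

namespace GK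

variable {G : Type} [Group G]

/-- the image of `K0` in `G / G1` -/
abbrev Qk (K0 G1 : Subgroup G) [G1.Normal] : Subgroup (G ⧸ G1) :=
  K0.map (QuotientGroup.mk' G1)

section

variable {G0 G1 K0 : Subgroup G} [hn : G1.Normal]

theorem cen (h0K : G0 ≤ K0) (h01 : ∀ x ∈ G0, ∀ y ∈ K0, ⁅x, y⁆ ∈ G1) {x : G} (hx : x ∈ G0) :
    (⟨QuotientGroup.mk' G1 x, Subgroup.mem_map_of_mem _ (h0K hx)⟩ : Qk K0 G1) ∈
      Subgroup.center (Qk K0 G1) := by
  rw [Subgroup.mem_center_iff]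
  rintro ⟨g, hg⟩
  obtain ⟨y, hy, rfl⟩ := hg
  apply Subtype.ext
  show QuotientGroup.mk' G1 y * QuotientGroup.mk' G1 x =
    QuotientGroup.mk' G1 x * QuotientGroup.mk' G1 y
  rw [← map_mul, ← map_mul]
  have h2 : (QuotientGroup.mk' G1) ⁅x, y⁆ = 1 := by
    rw [← MonoidHom.mem_ker, QuotientGroup.ker_mk']
    exact h01 x hx y hy
  have h3 : x * y = ⁅x, y⁆ * (y * x) := by
    rw [commutatorElement_def]; group
  rw [h3, map_mul _ ⁅x, y⁆, h2, one_mul]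

/-- the class of an element of `G0` -/
noncomputable def elh (h0K : G0 ≤ K0) (h01 : ∀ x ∈ G0, ∀ y ∈ K0, ⁅x, y⁆ ∈ G1) :
    G0 →* Subgroup.center (Qk K0 G1) where
  toFun x := ⟨⟨QuotientGroup.mk' G1 (x : G), Subgroup.mem_map_of_mem _ (h0K x.2)⟩,
    cen h0K h01 x.2⟩
  map_one' := by
    apply Subtype.ext
    apply Subtype.ext
    show QuotientGroup.mk' G1 ((1 : G0) : G) = 1
    rw [Subgroup.coe_one, map_one]
  map_mul' x y := by
    apply Subtype.ext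
    apply Subtype.ext
    show QuotientGroup.mk' G1 ((x * y : G0) : G) =
      QuotientGroup.mk' G1 (x : G) * QuotientGroup.mk' G1 (y : G)
    rw [Subgroup.coe_mul, map_mul]

theorem elh_one (h0K : G0 ≤ K0) (h01 : ∀ x ∈ G0, ∀ y ∈ K0, ⁅x, y⁆ ∈ G1) (x : G0) :
    elh h0K h01 x = 1 ↔ (x : G) ∈ G1 := by
  have e : (x : G) ∈ G1 ↔ QuotientGroup.mk' G1 (x : G) = 1 := by
    rw [← MonoidHom.mem_ker, QuotientGroup.ker_mk']
  rw [e]
  constructor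
  · intro h
    have h1 := congrArg (fun z : Subgroup.center (Qk K0 G1) => ((z : Qk K0 G1) : G ⧸ G1)) h
    exact h1
  · intro h
    apply Subtype.ext
    apply Subtype.ext
    exact h

theorem elh_eq (h0K : G0 ≤ K0) (h01 : ∀ x ∈ G0, ∀ y ∈ K0, ⁅x, y⁆ ∈ G1) {x y : G0}
    (h : (x : G) * (y : G)⁻¹ ∈ G1) : elh h0K h01 x = elh h0K h01 y := by
  rw [← mul_inv_eq_one, ← map_inv, ← map_mul, elh_one]
  exact h

/-- the homomorphism on `K0` -/
noncomputable def dl (h0K : G0 ≤ K0) (h01 : ∀ x ∈ G0, ∀ y ∈ K0, ⁅x, y⁆ ∈ G1) (ψ : TT G0) :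
    K0 →* Subgroup.center (Qk K0 G1) where
  toFun x := elh h0K h01 ⟨(ψ : MulAut G) x * (x : G)⁻¹, ψ.2 x⟩
  map_one' := by
    rw [elh_one]
    show (ψ : MulAut G) ((1 : K0) : G) * ((1 : K0) : G)⁻¹ ∈ G1
    rw [Subgroup.coe_one, map_one, inv_one, mul_one]
    exact G1.one_mem
  map_mul' x y := by
    rw [← map_mul]
    apply elh_eq
    show (ψ : MulAut G) ((x * y : K0) : G) * ((x * y : K0) : G)⁻¹ *
      (((ψ : MulAut G) x * (x : G)⁻¹) * ((ψ : MulAut G) y * (y : G)⁻¹))⁻¹ ∈ G1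
    have h1 : ⁅(ψ : MulAut G) y * (y : G)⁻¹, (x : G)⁆ ∈ G1 := h01 _ (ψ.2 y) _ x.2
    have h2 : (ψ : MulAut G) ((x * y : K0) : G) * ((x * y : K0) : G)⁻¹ *
      (((ψ : MulAut G) x * (x : G)⁻¹) * ((ψ : MulAut G) y * (y : G)⁻¹))⁻¹ =
      ((ψ : MulAut G) x * (x : G)⁻¹) *
        ⁅(ψ : MulAut G) y * (y : G)⁻¹, (x : G)⁆⁻¹ *
      ((ψ : MulAut G) x * (x : G)⁻¹)⁻¹ := by
      rw [Subgroup.coe_mul, map_mul, commutatorElement_def]
      group
    rw [h2]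
    exact hn.conj_mem _ (G1.inv_mem h1) _

theorem claimA (h0K : G0 ≤ K0) (h01 : ∀ x ∈ G0, ∀ y ∈ K0, ⁅x, y⁆ ∈ G1) (hc : G0 ≤ ⁅K0, K0⁆)
    (ψ : TT G0) {u : G} (hu : u ∈ G0) : (ψ : MulAut G) u * u⁻¹ ∈ G1 := by
  have h1 := hc hu
  rw [← Subgroup.map_subtype_commutator] at h1
  obtain ⟨v, hv, rfl⟩ := h1
  have h2 : dl h0K h01 ψ v = 1 := Abelianization.commutator_subset_ker (dl h0K h01 ψ) hv
  exact (elh_one h0K h01 _).1 h2

/-- the Johnson homomorphism -/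
noncomputable def tau (h0K : G0 ≤ K0) (h01 : ∀ x ∈ G0, ∀ y ∈ K0, ⁅x, y⁆ ∈ G1)
    (hc : G0 ≤ ⁅K0, K0⁆) (S : Finset G) : TT G0 →* (S → Subgroup.center (Qk K0 G1)) where
  toFun ψ i := elh h0K h01 ⟨(ψ : MulAut G) (i : G) * (i : G)⁻¹, ψ.2 (i : G)⟩
  map_one' := by
    funext i
    show elh h0K h01 ⟨((1 : TT G0) : MulAut G) (i : G) * (i : G)⁻¹, _⟩ = 1
    rw [elh_one]
    show (1 : MulAut G) (i : G) * (i : G)⁻¹ ∈ G1
    rw [MulAut.one_apply, mul_inv_cancel]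
    exact G1.one_mem
  map_mul' ψ φ := by
    funext i
    obtain ⟨x, hx⟩ : ∃ x : G, x = i := ⟨_, rfl⟩
    rw [Pi.mul_apply, ← hx]
    obtain ⟨u, hu⟩ : ∃ u : G0, u = ⟨(φ : MulAut G) x * x⁻¹, φ.2 x⟩ := ⟨_, rfl⟩
    obtain ⟨d, hd⟩ : ∃ d : G0, d = ⟨(ψ : MulAut G) x * x⁻¹, ψ.2 x⟩ := ⟨_, rfl⟩
    rw [← hu, ← hd, mul_comm, ← map_mul]
    apply elh_eq
    show (ψ : MulAut G) ((φ : MulAut G) x) * x⁻¹ * ((u * d : G0) : G)⁻¹ ∈ G1
    have h1 : (u : G) = (φ : MulAut G) x * x⁻¹ := by rw [hu]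
    have h2 : (d : G) = (ψ : MulAut G) x * x⁻¹ := by rw [hd]
    have h3 : (φ : MulAut G) x = (u : G) * x := by rw [h1]; group
    have h4 : (ψ : MulAut G) ((φ : MulAut G) x) * x⁻¹ * ((u * d : G0) : G)⁻¹ =
        (ψ : MulAut G) (u : G) * (u : G)⁻¹ := by
      rw [h3, map_mul, Subgroup.coe_mul, h2]
      group
    rw [h4]
    exact claimA h0K h01 hc ψ u.2

theorem tau_apply (h0K : G0 ≤ K0) (h01 : ∀ x ∈ G0, ∀ y ∈ K0, ⁅x, y⁆ ∈ G1)
    (hc : G0 ≤ ⁅K0, K0⁆) (S : Finset G) (ψ : TT G0) (i : S) : tau h0K h01 hc S ψ i =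
      elh h0K h01 ⟨(ψ : MulAut G) (i : G) * (i : G)⁻¹, ψ.2 (i : G)⟩ := rfl

theorem triv_of_tau (h0K : G0 ≤ K0) (h01 : ∀ x ∈ G0, ∀ y ∈ K0, ⁅x, y⁆ ∈ G1)
    (hc : G0 ≤ ⁅K0, K0⁆) (S : Finset G) (hS : Subgroup.closure (S : Set G) = ⊤)
    {ψ : TT G0} (h : tau h0K h01 hc S ψ = 1) : Tr G1 (ψ : MulAut G) := by
  let R : Subgroup G :=
    { carrier := {x | (ψ : MulAut G) x * x⁻¹ ∈ G1}
      one_mem' := by
        show (ψ : MulAut G) 1 * 1⁻¹ ∈ G1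
        rw [map_one, inv_one, mul_one]
        exact G1.one_mem
      mul_mem' := by
        intro x y hx hy
        show (ψ : MulAut G) (x * y) * (x * y)⁻¹ ∈ G1
        have e : (ψ : MulAut G) (x * y) * (x * y)⁻¹ =
            ((ψ : MulAut G) x * x⁻¹) * (x * ((ψ : MulAut G) y * y⁻¹) * x⁻¹) := by
          rw [map_mul]; group
        rw [e]
        exact G1.mul_mem hx (hn.conj_mem _ hy _)
      inv_mem' := by
        intro x hx
        show (ψ : MulAut G) x⁻¹ * x⁻¹⁻¹ ∈ G1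
        have e : (ψ : MulAut G) x⁻¹ * x⁻¹⁻¹ =
            x⁻¹ * ((ψ : MulAut G) x * x⁻¹)⁻¹ * x⁻¹⁻¹ := by
          rw [map_inv]; group
        rw [e]
        exact hn.conj_mem _ (G1.inv_mem hx) _ }
  have hR : R = ⊤ := by
    rw [eq_top_iff, ← hS, Subgroup.closure_le]
    intro x hx
    have h1 := congrFun h ⟨x, hx⟩
    rw [tau_apply] at h1
    exact (elh_one h0K h01 _).1 h1
  intro x
  have hx : x ∈ R := by rw [hR]; trivial
  exact hx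

/-- the step, in general form -/
theorem gen (h0K : G0 ≤ K0) (h01 : ∀ x ∈ G0, ∀ y ∈ K0, ⁅x, y⁆ ∈ G1)
    (hc : G0 ≤ ⁅K0, K0⁆) (S : Finset G) (hS : Subgroup.closure (S : Set G) = ⊤)
    [hfg : Group.FG (Subgroup.center (Qk K0 G1))]
    (hr : ∀ M : ℕ, 0 < M → ∃ K : Subgroup G, K.Characteristic ∧
      K.FiniteIndex ∧ ∀ x ∈ K, x ∈ G0 → ∃ y ∈ G0, x * (y ^ M)⁻¹ ∈ G1)
    (N : Subgroup (MulAut G)) (e : ℕ) (he : 0 < e)
    (hN : ∀ ψ : MulAut G, Tr G0 ψ → ψ ^ e ∈ N) (K1 : Subgroup G)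
    (hK1 : ∀ ψ : MulAut G, Tr K1 ψ → Tr G1 ψ → ψ ∈ N) :
    ∃ K2 : Subgroup G, K2.Characteristic ∧ K2.FiniteIndex ∧
      ∀ ψ : MulAut G, Tr K1 ψ → Tr K2 ψ → Tr G0 ψ → ψ ∈ N := by
  obtain ⟨A, hA⟩ : ∃ A, A = ((TT K1).subgroupOf (TT G0)).map (tau h0K h01 hc S) := ⟨_, rfl⟩
  obtain ⟨L, hL⟩ : ∃ L, L = ((TT K1 ⊓ N).subgroupOf (TT G0)).map (tau h0K h01 hc S) := ⟨_, rfl⟩
  have hLA : L ≤ A := by
    rw [hL, hA]
    apply Subgroup.map_mono
    intro ψ hψ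
    rw [Subgroup.mem_subgroupOf] at hψ ⊢
    exact hψ.1
  have hAL : ∀ a ∈ A, a ^ e ∈ L := by
    rw [hL, hA]
    rintro _ ⟨ψ, hψ, rfl⟩
    refine ⟨ψ ^ e, ?_, map_pow _ _ _⟩
    rw [SetLike.mem_coe, Subgroup.mem_subgroupOf] at hψ ⊢
    rw [Subgroup.coe_pow]
    have hq : (ψ : MulAut G) ^ e ∈ N := hN _ ψ.2
    exact ⟨Subgroup.pow_mem _ hψ _, hq⟩
  obtain ⟨M, hM, hM'⟩ := Pool.Agent.TH610.CSP.t_sep S (Subgroup.center (Qk K0 G1)) A L e he hLA hAL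
  obtain ⟨K2, hK2c, hK2f, hK2⟩ := hr M hM
  refine ⟨K2, hK2c, hK2f, ?_⟩
  intro ψ hψ1 hψ2 hψc
  choose y hy hy' using fun i : S => hK2 _ (hψ2 i) (hψc i)
  obtain ⟨ψ', hψ'⟩ : ∃ ψ' : TT G0, (ψ' : MulAut G) = ψ := ⟨⟨ψ, hψc⟩, rfl⟩
  have h1 : tau h0K h01 hc S ψ' = (fun i => elh h0K h01 ⟨y i, hy i⟩) ^ M := by
    funext i
    rw [tau_apply, Pi.pow_apply, ← map_pow]
    apply elh_eq
    show (ψ' : MulAut G) (i : G) * (i : G)⁻¹ * (((⟨y i, hy i⟩ : G0) ^ M : G0) : G)⁻¹ ∈ G1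
    rw [Subgroup.coe_pow, hψ']
    exact hy' i
  have h2 : tau h0K h01 hc S ψ' ∈ A := by
    rw [hA]
    refine ⟨ψ', ?_, rfl⟩
    rw [SetLike.mem_coe, Subgroup.mem_subgroupOf, hψ']
    exact hψ1
  rw [h1] at h2
  have h2' := hM' _ h2
  rw [hL] at h2'
  obtain ⟨φ, hφ, hφ'⟩ := h2'
  rw [← h1] at hφ'
  rw [SetLike.mem_coe, Subgroup.mem_subgroupOf] at hφ
  have h3 : tau h0K h01 hc S (φ⁻¹ * ψ') = 1 := by
    rw [map_mul, map_inv, hφ', inv_mul_cancel]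
  have h4 := triv_of_tau h0K h01 hc S hS h3
  have h5 : Tr K1 ((φ⁻¹ * ψ' : TT G0) : MulAut G) := by
    rw [← mem_TT, Subgroup.coe_mul, Subgroup.coe_inv, hψ']
    exact Subgroup.mul_mem _ (Subgroup.inv_mem _ hφ.1) hψ1
  have h6 := hK1 _ h5 h4
  have h7 : ψ = (φ : MulAut G) * ((φ⁻¹ * ψ' : TT G0) : MulAut G) := by
    rw [Subgroup.coe_mul, Subgroup.coe_inv, mul_inv_cancel_left, hψ']
  rw [h7]
  exact N.mul_mem hφ.2 h6

end

theorem lcs_normal (S : Subgroup G) [hS : S.Normal] (c : ℕ) : (S.lowerCentralSeries c).Normal := by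
  induction c with
  | zero => exact hS
  | succ c ih =>
    rw [Subgroup.lowerCentralSeries_succ]
    infer_instance

theorem fgK [Group.FG G] (K0 : Subgroup G) [hK : K0.FiniteIndex] (c : ℕ)
    [(K0.lowerCentralSeries c).Normal] :
    Group.FG (Subgroup.center (Qk K0 (K0.lowerCentralSeries c))) := by
  have h0 : Group.FG K0 := Subgroup.fg_of_index_ne_zero K0
  have h2 : Group.FG (Qk K0 (K0.lowerCentralSeries c)) :=
    Group.fg_of_surjective (MonoidHom.subgroupMap_surjective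
      (QuotientGroup.mk' (K0.lowerCentralSeries c)) K0)
  have h3 : Group.IsNilpotent (Qk K0 (K0.lowerCentralSeries c)) := by
    rw [Subgroup.isNilpotent_iff_lowerCentralSeries]
    refine ⟨c, ?_⟩
    rw [← Subgroup.map_lowerCentralSeries, Subgroup.map_eq_bot_iff, QuotientGroup.ker_mk']
  have h := Pool.Agent.Helper111.EN.NSc.NS_of_nilpotent_fg
    (⊤ : Subgroup (Qk K0 (K0.lowerCentralSeries c)))
    (Group.isNilpotent_top.2 h3) (Group.fg_def.1 h2)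
  exact (Group.fg_iff_subgroup_fg _).2 (h _ le_top)

theorem res [hG : Group.FG G] (K0 : Subgroup G) [hK0f : K0.FiniteIndex] (c M : ℕ) (hM : 0 < M) :
    ∃ K : Subgroup G, K.Characteristic ∧ K.FiniteIndex ∧
      ∀ x ∈ K, x ∈ K0.lowerCentralSeries c →
        ∃ y ∈ K0.lowerCentralSeries c, x * (y ^ M)⁻¹ ∈ K0.lowerCentralSeries (c + 1) := by
  have hfg : Group.FG K0 := Subgroup.fg_of_index_ne_zero K0
  obtain ⟨N, hN, hNf, hNx⟩ := Pool.Agent.TH610.CSP.gres_fg K0 c M hM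
  have hmap : ∀ k : ℕ, ((⊤ : Subgroup K0).lowerCentralSeries k).map K0.subtype =
      K0.lowerCentralSeries k := by
    intro k
    rw [Subgroup.map_lowerCentralSeries, ← MonoidHom.range_eq_map, Subgroup.range_subtype]
  have h1 : (N.map K0.subtype).FiniteIndex := by
    refine ⟨?_⟩
    rw [Subgroup.index_map_subtype]
    exact mul_ne_zero hNf.index_ne_zero hK0f.index_ne_zero
  have h2 : (N.map K0.subtype).normalCore.FiniteIndex := inferInstance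
  obtain ⟨K, hK1, hK2, hK3⟩ := char_core (N.map K0.subtype).normalCore
  refine ⟨K, hK1, hK2, fun x hx hxc => ?_⟩
  obtain ⟨x', hx'N, rfl⟩ := Subgroup.normalCore_le _ (hK3 hx)
  rw [← hmap c] at hxc
  obtain ⟨x'', hx''c, hxx⟩ := hxc
  have h3 : x'' = x' := Subtype.ext hxx
  subst h3
  obtain ⟨y, hy, hxy⟩ := hNx x'' hx'N hx''c
  refine ⟨K0.subtype y, ?_, ?_⟩
  · rw [← hmap c]
    exact Subgroup.mem_map_of_mem _ hy
  · rw [← hmap (c + 1), ← map_pow, ← map_inv, ← map_mul]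
    exact Subgroup.mem_map_of_mem _ hxy

/-- `N` contains a congruence subgroup of the automorphisms trivial on `G / γ_{c+1}(K1)` -/
def PCK (K1 : Subgroup G) (N : Subgroup (MulAut G)) (c : ℕ) : Prop :=
  ∃ K : Subgroup G, K.Characteristic ∧ K.FiniteIndex ∧
    ∀ ψ : MulAut G, Tr K ψ → Tr (K1.lowerCentralSeries c) ψ → ψ ∈ N

theorem step [Group.FG G] (K1 : Subgroup G) [K1.Normal] [K1.FiniteIndex] {c : ℕ} (hc : 1 ≤ c)
    (N : Subgroup (MulAut G)) (e : ℕ) (he : 0 < e)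
    (hN : ∀ ψ : MulAut G, Tr ⁅K1, K1⁆ ψ → ψ ^ e ∈ N) (h : PCK K1 N (c + 1)) : PCK K1 N c := by
  obtain ⟨K2, hK2c, hK2f, hK2⟩ := h
  obtain ⟨S, hS⟩ := (inferInstance : Group.FG G).out
  have hn1 : (K1.lowerCentralSeries (c + 1)).Normal := lcs_normal K1 (c + 1)
  have hfg := fgK K1 (c + 1)
  have h01 : ∀ x ∈ K1.lowerCentralSeries c, ∀ y ∈ K1, ⁅x, y⁆ ∈ K1.lowerCentralSeries (c + 1) := by
    intro x hx y hy
    rw [Subgroup.lowerCentralSeries_succ]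
    exact Subgroup.commutator_mem_commutator hx hy
  have hc1 : K1.lowerCentralSeries c ≤ ⁅K1, K1⁆ := by
    have h1 := K1.lowerCentralSeries_antitone hc
    exact h1
  obtain ⟨K3, hK3c, hK3f, hK3⟩ := gen (G0 := K1.lowerCentralSeries c)
    (G1 := K1.lowerCentralSeries (c + 1)) (K0 := K1) (K1.lowerCentralSeries_le_self c) h01 hc1
    S hS (fun M hM => res K1 c M hM) N e he (fun ψ hψ => hN ψ (Tr_mono hc1 hψ)) K2 hK2
  exact ⟨K2 ⊓ K3, inf_char hK2c hK3c, inferInstance,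
    fun ψ hψ hψc => hK3 ψ (fun x => (hψ x).1) (fun x => (hψ x).2) hψc⟩

/-- all the steps together -/
theorem steps [Group.FG G] (K1 : Subgroup G) [K1.Normal] [K1.FiniteIndex]
    (N : Subgroup (MulAut G)) (e : ℕ) (he : 0 < e)
    (hN : ∀ ψ : MulAut G, Tr ⁅K1, K1⁆ ψ → ψ ^ e ∈ N) :
    ∀ c : ℕ, 1 ≤ c → PCK K1 N c → PCK K1 N 1 := by
  intro c hc
  induction c, hc using Nat.le_induction with
  | base => exact id
  | succ c hc ih => exact fun h => ih (step K1 hc N e he hN h)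

end GK

end Pool.Agent.TH933.JT
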